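import Mathlib
set_option linter.style.longLine false
namespace Pool.Agent.Results.MP_5d9fac_lc.No
open Set Cardinal

/-- the strong polarized relation for two colours -/
def Pol (l k : Cardinal.{0}) : Prop :=
  ∀ c : l.out → k.out → Bool, ∃ (A : Set l.out) (B : Set k.out) (i : Bool), #A = l ∧ #B = k ∧ ∀ a ∈ A, ∀ b ∈ B, c a b = i

theorem result (k : Cardinal.{0}) (U : Ultrafilter k.out) (hU : ∀ B ∈ U, #B = k) (𝓑 : Set (Set k.out))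
    (h1 : ∀ B ∈ 𝓑, B ∈ U) (h2 : ∀ A ∈ U, ∃ B ∈ 𝓑, B ⊆ A) (hk : ℵ₀ ≤ k) (h : #𝓑 < (2 ^ k : Cardinal.{0}).ord.cof) : Pol (2 ^ k) k := fun c => by
  have i : ℵ₀ ≤ 2 ^ k := hk.trans (cantor k).le
  have c0 : ℵ₀ ≤ (2 ^ k : Cardinal.{0}).ord.cof := Ordinal.aleph0_le_cof.2 (isSuccLimit_ord i)
  by_contra! n
  let S := fun p : 𝓑 × Bool => {a | ∀ b ∈ p.1.1, c a b = p.2}
  have e : ⋃ p, S p = Set.univ := eq_univ_of_forall fun a => by
    obtain ⟨j, d⟩ : ∃ j, {b | c a b = j} ∈ U := (U.mem_or_compl_mem {b | c a b = true}).elim (⟨_, ·⟩)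
      fun d => ⟨false, by simpa [compl_ofPred] using d⟩
    obtain ⟨B, x, y⟩ := h2 _ d
    exact mem_iUnion.2 ⟨(⟨B, x⟩, j), y⟩
  have l : ∀ p, #(S p) < 2 ^ k := fun p => (mk_set_le _ |>.trans_eq (mk_out _)).lt_of_ne fun d =>
    let ⟨a, x, b, y, z⟩ := n _ _ p.2 d (hU _ (h1 _ p.1.2)); z (x b y)
  have m : #(𝓑 × Bool) < (2 ^ k : Cardinal.{0}).ord.cof := by simpa using mul_lt_of_lt c0 h ((natCast_lt_aleph0 (n := 2)).trans_le c0)
  have := (mk_iUnion_le S).trans_lt (mul_lt_of_lt i (m.trans_le (Ordinal.cof_ord_le _)) (iSup_lt_of_lt_cof_ord m l))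
  simp [e] at this

end Pool.Agent.Results.MP_5d9fac_lc.No
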